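import Pool.Agent.H87R3.Tri2

set_option autoImplicit false

/-! Alternating quotients of `<x, y, z | x^2, y^3, z^5, x y z u(x,y,z)>`: for infinitely many commutator
words `u`, among them the empty word, the only admissible degree is `5`. -/

namespace Pool.Agent.Results.MP_73c65d_al.TriangleFive

/-- The degree `n` is admissible for `p, q, r` and the word `u` in three letters: `A_n` is generated by
elements `ξ, η, ζ` with `ξ^p = η^q = ζ^r = ξ η ζ u(ξ, η, ζ) = 1`. -/
def Admissible (p q r : ℕ) (u : FreeGroup (Fin 3)) (n : ℕ) : Prop :=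
  ∃ ξ η ζ : alternatingGroup (Fin n), Subgroup.closure {ξ, η, ζ} = ⊤ ∧
    ξ ^ p = 1 ∧ η ^ q = 1 ∧ ζ ^ r = 1 ∧ ξ * η * ζ * FreeGroup.lift ![ξ, η, ζ] u = 1

open Pool.Agent.H87R3.Tri

open scoped commutatorElement

/-- the word `x y z` -/
def xyz : FreeGroup (Fin 3) := FreeGroup.of 0 * FreeGroup.of 1 * FreeGroup.of 2

theorem lift_xyz {G : Type*} [Group G] (a b c : G) : FreeGroup.lift ![a, b, c] xyz = a * b * c := by
  simp [xyz]

/-- the words `[x y z, g]` -/
def word (g : FreeGroup (Fin 3)) : FreeGroup (Fin 3) := xyz⁻¹ * g⁻¹ * xyz * g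

theorem word_mem (g : FreeGroup (Fin 3)) : word g ∈ commutator (FreeGroup (Fin 3)) := by
  have h : word g = ⁅xyz⁻¹, g⁻¹⁆ := by
    rw [commutatorElement_def]
    simp [word]
  rw [h]
  exact Subgroup.commutator_mem_commutator (Subgroup.mem_top _) (Subgroup.mem_top _)

theorem rel_iff {G : Type*} [Group G] (a b c : G) (g : FreeGroup (Fin 3)) :
    a * b * c * FreeGroup.lift ![a, b, c] (word g) = 1 ↔ a * b * c = 1 := by
  have h : a * b * c * FreeGroup.lift ![a, b, c] (word g) =
      (FreeGroup.lift ![a, b, c] g)⁻¹ * (a * b * c) * FreeGroup.lift ![a, b, c] g := by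
    simp only [word, map_mul, map_inv, lift_xyz]
    group
  rw [h]
  constructor
  · intro h1
    have h2 := congrArg (fun t => FreeGroup.lift ![a, b, c] g * t * (FreeGroup.lift ![a, b, c] g)⁻¹) h1
    simp only [mul_one, mul_inv_cancel] at h2
    rw [← h2]
    group
  · intro h1
    rw [h1]
    simp

theorem closure_pair {G : Type*} [Group G] {x y z : G} (h : x * y * z = 1) :
    Subgroup.closure {x, y, z} = Subgroup.closure {x, y} := by
  apply le_antisymm
  · rw [Subgroup.closure_le]
    rintro g (rfl | rfl | hg)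
    · exact Subgroup.subset_closure (Or.inl rfl)
    · exact Subgroup.subset_closure (Or.inr rfl)
    · rw [Set.mem_singleton_iff] at hg
      have h1 : g = (x * y)⁻¹ := by
        rw [hg]
        exact eq_inv_of_mul_eq_one_right h
      rw [h1]
      exact inv_mem (mul_mem (Subgroup.subset_closure (Or.inl rfl))
        (Subgroup.subset_closure (Or.inr rfl)))
  · apply Subgroup.closure_mono
    rintro g (rfl | hg)
    · exact Or.inl rfl
    · exact Or.inr (Or.inl hg)

theorem five_of {n : ℕ} (hn : 3 ≤ n) {ξ η ζ : alternatingGroup (Fin n)}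
    (hc : Subgroup.closure {ξ, η, ζ} = ⊤) (h2 : ξ ^ 2 = 1) (h3 : η ^ 3 = 1) (h5 : ζ ^ 5 = 1)
    (h : ξ * η * ζ = 1) : n = 5 := by
  rw [closure_pair h] at hc
  have hrel := rel_of h2 h3 h5 h
  have hcard := card_le hrel hc
  have : Nontrivial (Fin n) := by
    apply Fin.nontrivial_iff_two_le.2; omega
  rw [nat_card_alternatingGroup, Nat.card_eq_fintype_card, Fintype.card_fin] at hcard
  have hn5 : n ≤ 5 := by
    by_contra hlt
    have h6 : Nat.factorial 6 ≤ Nat.factorial n := Nat.factorial_le (by omega)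
    have h7 : Nat.factorial 6 = 720 := by decide
    omega
  have hx : (ξ : Equiv.Perm (Fin n)) * ξ = 1 := by
    have := congrArg Subtype.val hrel.xx
    simpa using this
  have hy : (η : Equiv.Perm (Fin n)) * η * η = 1 := by
    have := congrArg Subtype.val h3
    simpa [pow_succ] using this
  have hxy : ((ξ : Equiv.Perm (Fin n)) * η) * (ξ * η) * (ξ * η) * (ξ * η) * (ξ * η) = 1 := by
    have := congrArg Subtype.val hrel.pow
    simpa only [pow_succ, pow_zero, one_mul, Subgroup.coe_mul, Subgroup.coe_one] using this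
  have triv : ξ = 1 → η = 1 → False := by
    intro e1 e2
    rw [e1, e2] at hc
    have h8 : Subgroup.closure ({1, 1} : Set (alternatingGroup (Fin n))) = ⊥ := by
      rw [Set.pair_eq_singleton, Subgroup.closure_singleton_one]
    rw [h8] at hc
    have h9 : Nat.card (alternatingGroup (Fin n)) = 1 := by
      rw [← Subgroup.card_top, ← hc, Subgroup.card_bot]
    rw [nat_card_alternatingGroup, Nat.card_eq_fintype_card, Fintype.card_fin] at h9
    have h10 : Nat.factorial 3 ≤ Nat.factorial n := Nat.factorial_le hn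
    have h11 : Nat.factorial 3 = 6 := by decide
    omega
  have h345 : n = 3 ∨ n = 4 ∨ n = 5 := by omega
  rcases h345 with rfl | rfl | rfl
  · obtain ⟨e1, e2⟩ := small3 _ _ ⟨hx, hy, hxy⟩
    exact (triv (Subtype.ext e1) (Subtype.ext e2)).elim
  · obtain ⟨e1, e2⟩ := small4 _ _ ⟨hx, hy, hxy⟩
    exact (triv (Subtype.ext e1) (Subtype.ext e2)).elim
  · rfl

/-- generators of `A_5` -/
def X : alternatingGroup (Fin 5) :=
  ⟨c[0, 1] * c[2, 3], Equiv.Perm.mem_alternatingGroup.2 (by decide +kernel)⟩
def Y : alternatingGroup (Fin 5) :=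
  ⟨c[1, 2, 4], Equiv.Perm.mem_alternatingGroup.2 (by decide +kernel)⟩
def Z : alternatingGroup (Fin 5) := (X * Y)⁻¹

theorem X2 : X ^ 2 = 1 := by decide +kernel
theorem Y3 : Y ^ 3 = 1 := by decide +kernel
theorem Z5 : Z ^ 5 = 1 := by decide +kernel
theorem X1 : X ≠ 1 := by decide +kernel
theorem Y1 : Y ≠ 1 := by decide +kernel
theorem Z1 : Z ≠ 1 := by decide +kernel

theorem gen : Subgroup.closure {X, Y, Z} = (⊤ : Subgroup (alternatingGroup (Fin 5))) := by
  set H := Subgroup.closure ({X, Y, Z} : Set (alternatingGroup (Fin 5))) with hH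
  have hcard : Nat.card (alternatingGroup (Fin 5)) = 60 := by
    rw [nat_card_alternatingGroup, Nat.card_eq_fintype_card, Fintype.card_fin]
    decide
  have hd : ∀ (g : alternatingGroup (Fin 5)) (k : ℕ), k.Prime → g ∈ H → g ^ k = 1 → g ≠ 1 →
      k ∣ Nat.card H := by
    intro g k hk hg h1 h2
    have h3 : orderOf g = k := by
      have : Fact k.Prime := ⟨hk⟩
      exact orderOf_eq_prime h1 h2
    rw [← h3]
    exact Subgroup.orderOf_dvd_natCard H hg
  have h2 := hd X 2 Nat.prime_two (Subgroup.subset_closure (Or.inl rfl)) X2 X1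
  have h3 := hd Y 3 Nat.prime_three (Subgroup.subset_closure (Or.inr (Or.inl rfl))) Y3 Y1
  have h5 := hd Z 5 Nat.prime_five (Subgroup.subset_closure (Or.inr (Or.inr rfl))) Z5 Z1
  have h30 : 30 ∣ Nat.card H := by
    have h6 : 2 * 3 ∣ Nat.card H := Nat.Coprime.mul_dvd_of_dvd_of_dvd (by decide) h2 h3
    exact Nat.Coprime.mul_dvd_of_dvd_of_dvd (m := 6) (n := 5) (by decide) h6 h5
  obtain ⟨k, hk⟩ := h30
  have h7 := H.card_mul_index
  rw [hcard, hk] at h7
  have h8 : k * H.index = 2 := by
    have : 30 * (k * H.index) = 30 * 2 := by rw [← mul_assoc, h7]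
    omega
  have h9 : H.index ∣ 2 := ⟨k, by rw [← h8, mul_comm]⟩
  rcases (Nat.dvd_prime Nat.prime_two).1 h9 with h | h
  · exact Subgroup.index_eq_one.1 h
  · have hn : H.Normal := Subgroup.normal_of_index_eq_two h
    have hs : IsSimpleGroup (alternatingGroup (Fin 5)) :=
      alternatingGroup.isSimpleGroup (by simp)
    rcases hs.eq_bot_or_eq_top_of_normal H hn with h' | h'
    · exfalso
      have : X ∈ H := Subgroup.subset_closure (Or.inl rfl)
      rw [h', Subgroup.mem_bot] at this
      exact X1 this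
    · exact h'

theorem admissible_iff (g : FreeGroup (Fin 3)) (n : ℕ) (hn : 3 ≤ n) :
    Admissible 2 3 5 (word g) n ↔ n = 5 := by
  constructor
  · rintro ⟨ξ, η, ζ, hc, h2, h3, h5, h⟩
    exact five_of hn hc h2 h3 h5 ((rel_iff _ _ _ _).1 h)
  · rintro rfl
    exact ⟨X, Y, Z, gen, X2, Y3, Z5, (rel_iff _ _ _ _).2 (by rw [Z, mul_inv_cancel])⟩

/-- two permutations of the integer lattice generating a Heisenberg group -/
def A : Equiv.Perm (ℤ × ℤ) where
  toFun v := (v.1 + 1, v.2)
  invFun v := (v.1 - 1, v.2)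
  left_inv v := by simp
  right_inv v := by simp

def B : Equiv.Perm (ℤ × ℤ) where
  toFun v := (v.1, v.2 + v.1)
  invFun v := (v.1, v.2 - v.1)
  left_inv v := by simp
  right_inv v := by simp

theorem A_pow (k : ℕ) (v : ℤ × ℤ) : (A ^ k) v = (v.1 + k, v.2) := by
  induction k generalizing v with
  | zero => simp
  | succ k ih =>
    rw [pow_succ, Equiv.Perm.mul_apply, ih]
    simp only [A, Equiv.coe_fn_mk]
    ext
    · push_cast; ring
    · rfl

theorem word_image (k : ℕ) :
    (FreeGroup.lift ![A, B, 1] (word (FreeGroup.of 0 ^ k))) (0, 0) = (0, (k : ℤ)) := by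
  have h1 : FreeGroup.lift ![A, B, 1] (word (FreeGroup.of 0 ^ k)) =
      (A * B)⁻¹ * ((A ^ k)⁻¹ * ((A * B) * A ^ k)) := by
    simp only [word, map_mul, map_inv, lift_xyz, map_pow, FreeGroup.lift_apply_of]
    simp only [Matrix.cons_val_zero, mul_one, mul_assoc]
  rw [h1, Equiv.Perm.mul_apply, Equiv.Perm.inv_eq_iff_eq, Equiv.Perm.mul_apply,
    Equiv.Perm.inv_eq_iff_eq, A_pow, Equiv.Perm.mul_apply, Equiv.Perm.mul_apply,
    Equiv.Perm.mul_apply, A_pow]
  simp only [A, B, Equiv.coe_fn_mk]
  ext
  · simp [add_comm]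
  · simp

theorem word_injective : Function.Injective fun k : ℕ => word (FreeGroup.of 0 ^ k) := by
  intro k l h
  have h1 := word_image k
  have h2 := word_image l
  simp only at h
  rw [h, h2] at h1
  have h3 := congrArg Prod.snd h1
  simp only at h3
  exact_mod_cast h3.symm

/-- **Negative answer to Q2.** For the distinct primes `2, 3, 5` there are infinitely many commutator
words `u`, one of them the trivial word, for which `n = 5` is the only admissible `n ≥ 3`. -/
theorem result : Set.Infinite {u : FreeGroup (Fin 3) | u ∈ commutator (FreeGroup (Fin 3)) ∧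
      ∀ n : ℕ, 3 ≤ n → (Admissible 2 3 5 u n ↔ n = 5)} ∧
    ∀ n : ℕ, 3 ≤ n → (Admissible 2 3 5 1 n ↔ n = 5) := by
  constructor
  · refine Set.infinite_of_injective_forall_mem word_injective ?_
    intro k
    exact ⟨word_mem _, admissible_iff _⟩
  · have h : word 1 = 1 := by simp [word]
    have := admissible_iff 1
    rwa [h] at this

end Pool.Agent.Results.MP_73c65d_al.TriangleFive
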